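import Pool.Agent.K3h78.PN.Stm

/-!
# The core of project PN
-/

set_option autoImplicit false
set_option linter.unusedSectionVars false
set_option maxHeartbeats 800000

open MvPolynomial CategoryTheory Pool.Agent.K3h78.RN Pool.Agent.K3h85.BS

namespace Pool.Agent.K3h78.PN

lemma ev_map {s M M' : Type} [Field M] [CharZero M] [Field M'] [CharZero M'] (f : M →+* M')
    (Q : Polynomial (MvPolynomial s ℚ)) (ξ : s → M) (y : M) :
    f (ev Q ξ y) = ev Q (fun i => f (ξ i)) (f y) := by
  unfold ev
  rw [Polynomial.hom_eval₂]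
  congr 1
  refine MvPolynomial.ringHom_ext (fun r => ?_) fun i => ?_
  · simp
  · simp

lemma isAlgNum_of {M : Type} [Field M] [CharZero M] {x : M} (h : IsAlgebraic ℚ x) : IsAlgNum x := by
  obtain ⟨q, hq, h1⟩ := h
  refine ⟨q, hq, ?_⟩
  rw [Polynomial.aeval_def] at h1
  rwa [RingHom.ext_rat (Rat.castHom M) (algebraMap ℚ M)]

lemma isAlgNum_map {M M' : Type} [Field M] [CharZero M] [Field M'] [CharZero M'] (f : M →+* M')
    {x : M} (h : IsAlgNum x) : IsAlgNum (f x) := by
  obtain ⟨q, hq, h1⟩ := h
  refine ⟨q, hq, ?_⟩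
  have h2 := congrArg f h1
  rw [Polynomial.hom_eval₂, map_zero, RingHom.ext_rat (f.comp (Rat.castHom M)) (Rat.castHom M')]
    at h2
  exact h2

/-- algebraic numbers come from the algebraic closure of `ℚ` -/
lemma exists_closure {Ω : Type} [Field Ω] [CharZero Ω] [Algebra (AlgebraicClosure ℚ) Ω] {x : Ω}
    (h : IsAlgNum x) : ∃ k : AlgebraicClosure ℚ, algebraMap (AlgebraicClosure ℚ) Ω k = x := by
  obtain ⟨q, hq, h1⟩ := h
  have h2 : x ∈ (algebraMap (AlgebraicClosure ℚ) Ω).range := by
    refine mem_range_of_monic (algebraMap (AlgebraicClosure ℚ) Ω)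
      (p := (q * Polynomial.C q.leadingCoeff⁻¹).map (algebraMap ℚ (AlgebraicClosure ℚ)))
      ((Polynomial.monic_mul_leadingCoeff_inv hq).map _) ?_
    rw [Polynomial.eval₂_map, Polynomial.eval₂_mul]
    have h3 : (algebraMap (AlgebraicClosure ℚ) Ω).comp (algebraMap ℚ (AlgebraicClosure ℚ)) =
        Rat.castHom Ω := RingHom.ext_rat _ _
    rw [h3, h1, zero_mul]
  exact h2

section supports

variable {K Ω : Type} [Field K] [Field Ω] [CharZero Ω] [Algebra K Ω]

/-- homomorphisms map algebraic elements to algebraic elements -/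
lemma isAlgebraic_hom {M : Type} [Field M] [CharZero M] (f : M →+* Ω) {s t : Type} {ξ : s → M}
    {x : t → Ω} {S : Set t} (h : ∀ i, f (ξ i) ∈ x '' S) {b : M}
    (hb : IsAlgebraic (Algebra.adjoin ℚ (Set.range ξ)) b) :
    IsAlgebraic (Algebra.adjoin K (x '' S)) (f b) := by
  obtain ⟨p, hp, hpb⟩ := hb
  have hmem : ∀ z ∈ Algebra.adjoin ℚ (Set.range ξ), f z ∈ Algebra.adjoin K (x '' S) := by
    intro z hz
    induction hz using Algebra.adjoin_induction with
    | mem z hz =>
      obtain ⟨i, rfl⟩ := hz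
      exact Algebra.subset_adjoin (h i)
    | algebraMap k =>
      have hK : CharZero K := (algebraMap K Ω).charZero
      have h1 : f (algebraMap ℚ M k) = algebraMap K Ω (algebraMap ℚ K k) := by
        have h2 := RingHom.ext_rat (f.comp (algebraMap ℚ M))
          ((algebraMap K Ω).comp (algebraMap ℚ K))
        exact congrArg (fun g : ℚ →+* Ω => g k) h2
      rw [h1]
      exact Subalgebra.algebraMap_mem _ _
    | add a b _ _ ha hb => rw [map_add]; exact Subalgebra.add_mem _ ha hb
    | mul a b _ _ ha hb => rw [map_mul]; exact Subalgebra.mul_mem _ ha hb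
  let i : Algebra.adjoin ℚ (Set.range ξ) →+* Algebra.adjoin K (x '' S) :=
    { toFun := fun z => ⟨f z, hmem z z.2⟩
      map_one' := Subtype.ext (map_one f)
      map_zero' := Subtype.ext (map_zero f)
      map_mul' := fun a b => Subtype.ext (map_mul f _ _)
      map_add' := fun a b => Subtype.ext (map_add f _ _) }
  have hi : Function.Injective i := by
    intro a b hab
    exact Subtype.ext (f.injective (congrArg Subtype.val hab))
  refine ⟨p.map i, (Polynomial.map_ne_zero_iff hi).2 hp, ?_⟩
  rw [Polynomial.aeval_def, Polynomial.eval₂_map]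
  have h1 : (algebraMap (Algebra.adjoin K (x '' S)) Ω).comp i =
      f.comp (algebraMap (Algebra.adjoin ℚ (Set.range ξ)) M) := rfl
  rw [h1]
  have h2 := Polynomial.hom_eval₂ p (algebraMap (Algebra.adjoin ℚ (Set.range ξ)) M) f b
  refine h2.symm.trans ?_
  rw [← Polynomial.aeval_def, hpb, map_zero]

/-- the support of the image of a class over a finitely generated algebra -/
lemma supp_hom (F : CommRingCat.{0} ⥤ ModuleCat.{0} ℚ) {Ω' : Type} [Field Ω'] [CharZero Ω']
    {A : Subalgebra ℚ Ω'} (hA : A.FG) (a : ov F A) (φ : A →+* Ω) {t : Type} {x : t → Ω}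
    {S : Set t} (h : ∀ b, IsAlgebraic (Algebra.adjoin K (x '' S)) (φ b)) :
    mr F φ a ∈ supp (restr K F) x S := by
  classical
  obtain ⟨g, hg⟩ := (Subalgebra.fg_top A).2 hA
  let A' : Subalgebra K Ω := Algebra.adjoin K ((g.image φ : Finset Ω) : Set Ω)
  have hmem : ∀ b : A, φ b ∈ A' := by
    intro b
    have hb : b ∈ Algebra.adjoin ℚ (g : Set A) := by
      rw [hg]
      exact Algebra.mem_top
    induction hb using Algebra.adjoin_induction with
    | mem z hz => exact Algebra.subset_adjoin (Finset.mem_coe.2 (Finset.mem_image_of_mem _ hz))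
    | algebraMap k =>
      have hK : CharZero K := (algebraMap K Ω).charZero
      have h1 : φ (algebraMap ℚ A k) = algebraMap K Ω (algebraMap ℚ K k) := by
        have h2 := RingHom.ext_rat (φ.comp (algebraMap ℚ A))
          ((algebraMap K Ω).comp (algebraMap ℚ K))
        exact congrArg (fun g : ℚ →+* Ω => g k) h2
      rw [h1]
      exact Subalgebra.algebraMap_mem _ _
    | add a b _ _ ha hb => rw [map_add]; exact Subalgebra.add_mem _ ha hb
    | mul a b _ _ ha hb => rw [map_mul]; exact Subalgebra.mul_mem _ ha hb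
  let f : A →+* A' := φ.codRestrict A'.toSubring hmem
  refine ⟨A', mr F f a, ⟨_, rfl⟩, ?_, ?_⟩
  · refine Algebra.adjoin_le fun b hb => ?_
    obtain ⟨z, hz, rfl⟩ := Finset.mem_image.1 (Finset.mem_coe.1 hb)
    exact h z
  · rw [mapA_restr, ← mr_comp]
    rfl

end supports

/-- the Vandermonde matrix of the conjugates is invertible -/
lemma exists_inverse {K G : Type} [Field K] [Fintype G] [DecidableEq G] (κ : G → K)
    (hκ : Function.Injective κ) : ∃ N : Matrix (Fin (Fintype.card G)) G K,
      (Matrix.of fun (σ : G) (m : Fin (Fintype.card G)) => κ σ ^ (m : ℕ)) * N = 1 ∧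
      N * (Matrix.of fun (σ : G) (m : Fin (Fintype.card G)) => κ σ ^ (m : ℕ)) = 1 := by
  let e : Fin (Fintype.card G) ≃ G := (Fintype.equivFin G).symm
  let V : Matrix (Fin (Fintype.card G)) (Fin (Fintype.card G)) K :=
    Matrix.vandermonde fun i => κ (e i)
  have hV : IsUnit V.det := by
    rw [isUnit_iff_ne_zero]
    exact Matrix.det_vandermonde_ne_zero_iff.2 (hκ.comp e.injective)
  have h1 : (Matrix.of fun (σ : G) (m : Fin (Fintype.card G)) => κ σ ^ (m : ℕ)) =
      V.submatrix e.symm id := by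
    ext σ m
    simp [V, Matrix.vandermonde_apply]
  refine ⟨V⁻¹.submatrix id e.symm, ?_, ?_⟩
  · rw [h1]
    have h2 := Matrix.submatrix_mul_equiv V V⁻¹ e.symm (Equiv.refl _) e.symm
    have h3 : V.submatrix (e.symm : G → _) id * V⁻¹.submatrix id (e.symm : G → _) =
        (V * V⁻¹).submatrix e.symm e.symm := h2
    rw [h3, Matrix.mul_nonsing_inv V hV]
    exact Matrix.submatrix_one_equiv e.symm
  · rw [h1]
    have h2 := Matrix.submatrix_mul_equiv V⁻¹ V (id : Fin (Fintype.card G) → _) e.symm id
    have h3 : V⁻¹.submatrix id (e.symm : G → _) * V.submatrix (e.symm : G → _) id =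
        (V⁻¹ * V).submatrix id id := h2
    rw [h3, Matrix.nonsing_inv_mul V hV, Matrix.submatrix_id_id]

end Pool.Agent.K3h78.PN
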