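import Pool.Agent.K3h78.PN.Stm

/-!
# A transcendence basis of small elements of a complete field

The first theorem is a version of the theorem `Pool.Agent.K3h35.PN.t_SMALL` of helper35 in which the prime
number is replaced by a small element.
-/

set_option autoImplicit false
set_option maxHeartbeats 400000

open Pool.Agent.K3h85.BS

namespace Pool.Agent.K3h78.PN

theorem small_scale (L Ω K : Type) [NontriviallyNormedField L] [CompleteSpace L] [CharZero L]
    [Field Ω] [Algebra L Ω] [IsAlgClosure L Ω] [Field K] [Algebra K Ω]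
    (hK : Cardinal.mk K ≤ Cardinal.aleph0) (c : K) (p : L)
    (hcp : algebraMap L Ω p = algebraMap K Ω c) (hp0 : p ≠ 0) (hpn : ‖p‖ < 1)
    (s : Type) [Fintype s] [Nonempty s] (n : ℕ) (hn : 0 < n) (δ : ℝ) (hδ : 0 < δ) :
    ∃ (T : Type) (b : (T × s) × Fin n → L),
      Cardinal.continuum ≤ Cardinal.mk T ∧ (∀ z, ‖b z‖ < δ) ∧
        IsTranscendenceBasis K fun z => algebraMap L Ω (b z) := by
  have hcl : IsAlgClosed Ω := IsAlgClosure.isAlgClosed L
  have halgL : Algebra.IsAlgebraic L Ω := IsAlgClosure.isAlgebraic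
  have hinj : Function.Injective (algebraMap L Ω) := (algebraMap L Ω).injective
  have hcharΩ : CharZero Ω := charZero_of_injective_algebraMap hinj
  have hcharK : CharZero K := (algebraMap K Ω).charZero
  set S : Set Ω := Set.range (algebraMap L Ω) with hS
  have hs : Algebra.IsAlgebraic (Algebra.adjoin K S) Ω := by
    constructor
    intro z
    obtain ⟨q, hq, hqz⟩ := halgL.isAlgebraic z
    let i : L →+* Algebra.adjoin K S := (algebraMap L Ω).codRestrict (Algebra.adjoin K S).toSubring
      fun l => Algebra.subset_adjoin ⟨l, rfl⟩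
    refine ⟨q.map i, (Polynomial.map_ne_zero_iff i.injective).2 hq, ?_⟩
    rw [Polynomial.aeval_def, Polynomial.eval₂_map]
    exact hqz
  obtain ⟨t, htS, ht⟩ := exists_isTranscendenceBasis_subset (R := K) S
  have hLc : Cardinal.continuum ≤ Cardinal.mk L := continuum_le_cardinal_of_nontriviallyNormedField L
  have hΩc : Cardinal.continuum ≤ Cardinal.mk Ω := hLc.trans (Cardinal.mk_le_of_injective hinj)
  have h1 : Cardinal.mk Ω = Cardinal.mk t :=
    IsAlgClosed.cardinal_eq_cardinal_transcendence_basis_of_aleph0_lt' _ ht hK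
      (Cardinal.aleph0_lt_continuum.trans_le hΩc)
  have hinf : Cardinal.aleph0 ≤ Cardinal.mk t := by
    rw [← h1]
    exact Cardinal.aleph0_le_continuum.trans hΩc
  have hNn : Nonempty (Fin n) := ⟨⟨0, hn⟩⟩
  obtain ⟨e⟩ : Nonempty ((t × s) × Fin n ≃ t) := by
    rw [← Cardinal.eq, ← Cardinal.mul_def, ← Cardinal.mul_def]
    have hs1 : Cardinal.mk s ≤ Cardinal.mk t :=
      (Cardinal.lt_aleph0_of_finite s).le.trans hinf
    have hn1 : Cardinal.mk (Fin n) ≤ Cardinal.mk t :=
      (Cardinal.lt_aleph0_of_finite (Fin n)).le.trans hinf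
    rw [Cardinal.mul_eq_left hinf hs1 (Cardinal.mk_ne_zero s),
      Cardinal.mul_eq_left hinf hn1 (Cardinal.mk_ne_zero (Fin n))]
  have hl : ∀ z, ∃ l : L, algebraMap L Ω l = (e z : Ω) := fun z => htS (e z).2
  choose l hl using hl
  have hN : ∀ z, ∃ N : ℕ, ‖p ^ N * l z‖ < δ := by
    intro z
    have h2 : Filter.Tendsto (fun N : ℕ => ‖p‖ ^ N * ‖l z‖) Filter.atTop (nhds (0 * ‖l z‖)) :=
      (tendsto_pow_atTop_nhds_zero_of_lt_one (norm_nonneg _) hpn).mul_const _
    rw [zero_mul] at h2
    obtain ⟨N, hN⟩ := (h2.eventually (gt_mem_nhds hδ)).exists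
    refine ⟨N, ?_⟩
    rw [norm_mul, norm_pow]
    exact hN
  choose N hN using hN
  have hc0 : c ≠ 0 := by
    rintro rfl
    rw [map_zero] at hcp
    exact hp0 ((map_eq_zero (algebraMap L Ω)).1 hcp)
  have hb : ∀ z, algebraMap L Ω (p ^ N z * l z) = algebraMap K Ω (c ^ N z) * (e z : Ω) := by
    intro z
    rw [map_mul, map_pow, hcp, map_pow, hl]
  refine ⟨t, fun z => p ^ N z * l z, hΩc.trans_eq h1, hN, ?_⟩
  have hr : IsTranscendenceBasis K fun z => ((e z : t) : Ω) := by
    rw [isTranscendenceBasis_iff_algebraicIndependent_isAlgebraic]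
    refine ⟨ht.1.comp e e.injective, ?_⟩
    have h2 : Set.range (fun z => ((e z : t) : Ω)) = Set.range ((↑) : t → Ω) := by
      ext z
      constructor
      · rintro ⟨y, rfl⟩
        exact ⟨e y, rfl⟩
      · rintro ⟨y, rfl⟩
        exact ⟨e.symm y, by simp⟩
    rw [h2]
    exact ht.isAlgebraic
  simp only [hb]
  rw [isTranscendenceBasis_iff_algebraicIndependent_isAlgebraic]
  constructor
  · have h3 := hr.1.polynomial_aeval_of_transcendental
      (f := fun z => Polynomial.C (c ^ N z) * Polynomial.X) (fun z => by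
        have h4 := (Polynomial.transcendental_X (R := K)).aeval
          (Polynomial.C (c ^ N z) * Polynomial.X)
          (by rw [Polynomial.natDegree_C_mul_X _ (pow_ne_zero _ hc0)]; exact one_ne_zero)
          (mem_nonZeroDivisors_of_ne_zero (by
            rw [Polynomial.leadingCoeff_ne_zero]
            exact mul_ne_zero (Polynomial.C_ne_zero.2 (pow_ne_zero _ hc0)) Polynomial.X_ne_zero))
        rwa [Polynomial.aeval_X_left_apply] at h4)
    have e3 : (fun z => Polynomial.aeval ((e z : t) : Ω)
        (Polynomial.C (c ^ N z) * Polynomial.X)) =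
        fun z => algebraMap K Ω (c ^ N z) * (e z : Ω) := by
      funext z
      rw [map_mul, Polynomial.aeval_C, Polynomial.aeval_X]
    rw [e3] at h3
    exact h3
  · refine ⟨fun z => isAlgebraic_mono (k₁ := K) (k₂ := K) ?_ (hr.isAlgebraic.isAlgebraic z)⟩
    have h2 : Algebra.adjoin K (Set.range fun z => ((e z : t) : Ω)) ≤
        Algebra.adjoin K (Set.range fun z => algebraMap K Ω (c ^ N z) * (e z : Ω)) := by
      refine Algebra.adjoin_le ?_
      rintro _ ⟨z, rfl⟩
      have h3 : ((e z : t) : Ω) = algebraMap K Ω ((c ^ N z)⁻¹) *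
          (algebraMap K Ω (c ^ N z) * (e z : Ω)) := by
        rw [← mul_assoc, ← map_mul, inv_mul_cancel₀ (pow_ne_zero _ hc0), map_one, one_mul]
      show ((e z : t) : Ω) ∈ _
      rw [h3]
      exact Subalgebra.mul_mem _ (Subalgebra.algebraMap_mem _ _) (Algebra.subset_adjoin ⟨z, rfl⟩)
    exact fun z hz => h2 hz

/-- An algebraic closure of a complete field of characteristic zero has a transcendence basis over each
countable algebraically closed subfield which consists of small elements of the complete field. -/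
theorem small_all (L Ω K : Type) [NontriviallyNormedField L] [CompleteSpace L] [CharZero L]
    [Field Ω] [Algebra L Ω] [IsAlgClosure L Ω] [Field K] [IsAlgClosed K] [Algebra K Ω]
    (hK : Cardinal.mk K ≤ Cardinal.aleph0)
    (s : Type) [Fintype s] [Nonempty s] (n : ℕ) (hn : 0 < n) (δ : ℝ) (hδ : 0 < δ) :
    ∃ (T : Type) (b : (T × s) × Fin n → L),
      Cardinal.continuum ≤ Cardinal.mk T ∧ (∀ z, ‖b z‖ < δ) ∧
        IsTranscendenceBasis K fun z => algebraMap L Ω (b z) := by
  classical
  obtain ⟨π₀, hπ₀, hπ₁⟩ := NormedField.exists_norm_lt L (lt_min hδ one_pos)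
  have hπδ : ‖π₀‖ < δ := hπ₁.trans_le (min_le_left _ _)
  have hπ1 : ‖π₀‖ < 1 := hπ₁.trans_le (min_le_right _ _)
  have hπ0 : π₀ ≠ 0 := norm_pos_iff.1 hπ₀
  by_cases hmem : ∃ c : K, algebraMap L Ω π₀ = algebraMap K Ω c
  · obtain ⟨c, hc⟩ := hmem
    exact small_scale L Ω K hK c π₀ hc hπ0 hπ1 s n hn δ hδ
  · have htr : Transcendental K (algebraMap L Ω π₀) := by
      rintro ⟨q, hq, hq0⟩
      have h2 : algebraMap L Ω π₀ ∈ (algebraMap K Ω).range := by
        refine mem_range_of_monic (algebraMap K Ω) (p := q * Polynomial.C q.leadingCoeff⁻¹)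
          (Polynomial.monic_mul_leadingCoeff_inv hq) ?_
        rw [Polynomial.eval₂_mul, ← Polynomial.aeval_def, hq0, zero_mul]
      obtain ⟨c, hc⟩ := h2
      exact hmem ⟨c, hc.symm⟩
    let K₁ := IntermediateField.adjoin K {algebraMap L Ω π₀}
    have hK₁ : Cardinal.mk K₁ ≤ Cardinal.aleph0 := by
      refine (IntermediateField.cardinalMk_adjoin_le K _).trans (max_le (max_le hK ?_) le_rfl)
      rw [Cardinal.mk_singleton]
      exact Cardinal.one_le_aleph0
    let a : K₁ := ⟨_, IntermediateField.mem_adjoin_simple_self K (algebraMap L Ω π₀)⟩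
    obtain ⟨T, b, hT, hb, hbb⟩ := small_scale L Ω K₁ hK₁ a π₀ rfl hπ0 hπ1 s n hn δ hδ
    have hx : IsTranscendenceBasis K (fun _ : Unit => a) := by
      rw [isTranscendenceBasis_iff_algebraicIndependent_isAlgebraic]
      constructor
      · rw [algebraicIndependent_unique_type_iff]
        intro halg
        exact htr (halg.algebraMap (A := Ω))
      · refine ⟨fun z => ?_⟩
        obtain ⟨z, hz⟩ := z
        induction hz using IntermediateField.adjoin_induction with
        | mem x hx =>
          have h3 : (⟨x, IntermediateField.subset_adjoin K _ hx⟩ : K₁) = a :=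
            Subtype.ext (Set.mem_singleton_iff.1 hx)
          rw [h3]
          exact isAlgebraic_algebraMap (⟨a, Algebra.subset_adjoin ⟨(), rfl⟩⟩ :
            Algebra.adjoin K (Set.range fun _ : Unit => a))
        | algebraMap k =>
          exact isAlgebraic_algebraMap (algebraMap K
            (Algebra.adjoin K (Set.range fun _ : Unit => a)) k)
        | add x y hx hy h1 h2 => exact h1.add h2
        | inv x hx h1 => exact h1.inv
        | mul x y hx hy h1 h2 => exact h1.mul h2
    have hsum := hx.sumElim_comp hbb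
    have hTi : Cardinal.aleph0 ≤ Cardinal.mk ((T × s) × Fin n) := by
      have hNn : Nonempty (Fin n) := ⟨⟨0, hn⟩⟩
      refine (Cardinal.aleph0_le_continuum.trans hT).trans (Cardinal.mk_le_of_injective
        (f := fun t : T => ((t, Classical.arbitrary s), Classical.arbitrary (Fin n))) ?_)
      intro t t' h
      simpa using h
    obtain ⟨e⟩ : Nonempty ((T × s) × Fin n ≃ ((T × s) × Fin n) ⊕ Unit) := by
      rw [← Cardinal.eq, Cardinal.mk_sum, Cardinal.lift_id, Cardinal.lift_id,
        Cardinal.add_eq_left hTi ((Cardinal.mk_le_aleph0).trans hTi)]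
    refine ⟨T, fun z => Sum.elim b (fun _ => π₀) (e z), hT, fun z => ?_, ?_⟩
    · show ‖Sum.elim b (fun _ => π₀) (e z)‖ < δ
      rcases e z with z | z
      · exact hb z
      · exact hπδ
    · have h4 : (fun z => algebraMap L Ω (Sum.elim b (fun _ => π₀) (e z))) =
          (Sum.elim (fun z => algebraMap L Ω (b z)) (algebraMap K₁ Ω ∘ fun _ : Unit => a)) ∘ e := by
        funext z
        rcases h5 : e z with z' | z'
        · simp [h5]
        · simp only [h5, Sum.elim_inr, Function.comp_apply]
          rfl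
      rw [h4]
      exact (isTranscendenceBasis_equiv e).2 hsum

end Pool.Agent.K3h78.PN
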