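import Pool.Agent.K3h78.PN.Core
import Pool.Agent.K3h78.PN.SmallAll

/-!
# The assembly of project PN
-/

set_option autoImplicit false
set_option linter.unusedSectionVars false
set_option maxHeartbeats 1000000

open MvPolynomial CategoryTheory Pool.Agent.K3h78.RN Pool.Agent.K3h85.BS

namespace Pool.Agent.K3h78.PN

lemma card_closure' (k : Type) [Field k] (hk : Cardinal.mk k ≤ Cardinal.aleph0) :
    Cardinal.mk (AlgebraicClosure k) ≤ Cardinal.aleph0 :=
  (Algebra.IsAlgebraic.cardinalMk_le_max k (AlgebraicClosure k)).trans (max_le hk le_rfl)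

lemma closure_card : Cardinal.mk (AlgebraicClosure ℚ) ≤ Cardinal.aleph0 :=
  card_closure' ℚ (le_of_eq Cardinal.mkRat)

/-- a generator of a finite Galois extension has different conjugates -/
lemma conj_injective {L E : Type} [Field L] [Field E] [Algebra L E] {θ : E}
    (hθ : IntermediateField.adjoin L {θ} = ⊤) :
    Function.Injective fun σ : E ≃ₐ[L] E => σ θ := by
  intro σ τ h
  ext z
  have hz : z ∈ IntermediateField.adjoin L {θ} := by
    rw [hθ]
    exact IntermediateField.mem_top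
  induction hz using IntermediateField.adjoin_induction with
  | mem x hx =>
    rw [Set.mem_singleton_iff] at hx
    rw [hx]
    exact h
  | algebraMap x => rw [AlgEquiv.commutes, AlgEquiv.commutes]
  | add x y _ _ hx hy => rw [map_add, map_add, hx, hy]
  | inv x _ hx => rw [map_inv₀, map_inv₀, hx]
  | mul x y _ _ hx hy => rw [map_mul, map_mul, hx, hy]

/-- **The core.** -/
theorem core (hHENS : S_HENS) (hMODEL : S_MODEL) (hEXT : S_EXT) (hMB : S_MBASIS)
    (hNB : S_NOTBASE) (F : CommRingCat.{0} ⥤ ModuleCat.{0} ℚ)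
    (hF : ∀ (K L : Type) [Field K] [CharZero K] [Field L] [Algebra K L],
      IsFinitary (restr K F) L)
    (L Ω : Type) [NontriviallyNormedField L] [CompleteSpace L] [IsUltrametricDist L] [CharZero L]
    [Field Ω] [CharZero Ω] [Algebra L Ω] [IsAlgClosure L Ω] [Algebra (AlgebraicClosure ℚ) Ω]
    {α : ov F Ω} (hα : α ∉ base (restr (AlgebraicClosure ℚ) F) Ω) :
    ∃ (E : IntermediateField L Ω) (_ : FiniteDimensional L E) (T : Type) (γ : T → ov F E),
      IsGalois L E ∧ Cardinal.continuum ≤ Cardinal.mk T ∧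
      LinearIndependent ℚ fun t => (base (restr (AlgebraicClosure ℚ) F) Ω).mkQ
        (mr F (algebraMap E Ω) (∑ σ : E ≃ₐ[L] E, mr F (σ : E →+* E) (γ t))) := by
  classical
  have hΩ : IsAlgClosed Ω := IsAlgClosure.isAlgClosed L
  obtain ⟨A, a, hA, ha⟩ := (hF ℚ Ω).exists_rep α
  obtain ⟨s, hs, Q, D, hD, hQa, hQb⟩ := hMODEL Ω A hA
  -- the rational point
  obtain ⟨u, hu⟩ : ∃ u : s → ℚ, eval u D ≠ 0 := by
    by_contra hcon
    push Not at hcon
    exact hD (MvPolynomial.funext fun u => by rw [hcon u, map_zero])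
  obtain ⟨v, hv0, hv1⟩ := hQa (AlgebraicClosure ℚ) (fun i => (u i : (AlgebraicClosure ℚ))) (by
    have h1 : eval₂ (Rat.castHom (AlgebraicClosure ℚ)) (fun i => (u i : (AlgebraicClosure ℚ))) D = Rat.castHom (AlgebraicClosure ℚ) (eval u D) := by
      have h2 := MvPolynomial.eval₂_comp_left (Rat.castHom (AlgebraicClosure ℚ)) (RingHom.id ℚ) u D
      rw [RingHom.comp_id] at h2
      exact h2.symm
    rw [h1]
    exact (map_ne_zero _).2 hu)
  let vΩ : Ω := algebraMap (AlgebraicClosure ℚ) Ω v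
  have hvn : IsAlgNum vΩ := isAlgNum_map (algebraMap (AlgebraicClosure ℚ) Ω)
    (isAlgNum_of ((AlgebraicClosure.isAlgebraic ℚ).isAlgebraic v))
  obtain ⟨E, θ, hfd, hgal, hvE, hθ, hgen⟩ := hEXT L Ω vΩ hvn
  have hEi : Function.Injective (algebraMap E Ω) := (algebraMap E Ω).injective
  let vE : E := ⟨vΩ, hvE⟩
  have key : ∀ R : Polynomial (MvPolynomial s ℚ), algebraMap E Ω (ev R (fun i => (u i : E)) vE) =
      algebraMap (AlgebraicClosure ℚ) Ω (ev R (fun i => (u i : (AlgebraicClosure ℚ))) v) := by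
    intro R
    rw [ev_map, ev_map]
    have h1 : (fun i => algebraMap E Ω ((u i : ℚ) : E)) =
        fun i => algebraMap (AlgebraicClosure ℚ) Ω ((u i : ℚ) : (AlgebraicClosure ℚ)) := by
      funext i
      rw [map_ratCast, map_ratCast]
    rw [h1]
    rfl
  have hvE0 : ev Q (fun i => (u i : E)) vE = 0 := by
    apply hEi
    rw [key, hv0, map_zero, map_zero]
  have hvE1 : ev (Polynomial.derivative Q) (fun i => (u i : E)) vE ≠ 0 := by
    intro h
    apply hv1
    apply (algebraMap (AlgebraicClosure ℚ) Ω).injective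
    rw [← key, h, map_zero, map_zero]
  -- the Galois group and the conjugates of the generator
  let G := E ≃ₐ[L] E
  obtain ⟨κ, hκ⟩ : ∃ κ : G → (AlgebraicClosure ℚ), ∀ σ : G, algebraMap (AlgebraicClosure ℚ) Ω (κ σ) = algebraMap E Ω (σ θ) := by
    choose κ hκ using fun σ : G => exists_closure (Ω := Ω)
      (isAlgNum_map ((algebraMap E Ω).comp (σ : E →+* E)) hθ)
    exact ⟨κ, hκ⟩
  have hκi : Function.Injective κ := by
    intro σ τ h
    apply conj_injective hgen
    apply hEi
    change algebraMap E Ω (σ θ) = algebraMap E Ω (τ θ)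
    rw [← hκ, ← hκ, h]
  obtain ⟨N, hN1, hN2⟩ := exists_inverse κ hκi
  let n := Fintype.card G
  have hn : 0 < n := Fintype.card_pos
  -- small elements
  obtain ⟨δ, hδ, hroot⟩ := hHENS L E s n θ Q u vE hvE0 hvE1
  obtain ⟨T, b, hT, hb, hbb⟩ := small_all L Ω (AlgebraicClosure ℚ) closure_card (Option s) n hn δ hδ
  let u' : T × Option s → (AlgebraicClosure ℚ) := fun j => match j.2 with
    | some i => (u i : (AlgebraicClosure ℚ))
    | none => 0
  obtain ⟨x, hxdef⟩ : ∃ x : (T × Option s) × G → Ω, x = fun z =>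
      algebraMap (AlgebraicClosure ℚ) Ω (u' z.1) + ∑ k, algebraMap (AlgebraicClosure ℚ) Ω ((Matrix.of fun (σ : G)
        (m : Fin (Fintype.card G)) => κ σ ^ (m : ℕ)) z.2 k) * algebraMap L Ω (b (z.1, k)) := ⟨_, rfl⟩
  have hx : IsTranscendenceBasis (AlgebraicClosure ℚ) x := by
    rw [hxdef]
    exact hMB (AlgebraicClosure ℚ) Ω (T × Option s) G (Fin (Fintype.card G)) _ N hN1 hN2 u'
      (fun z => algebraMap L Ω (b z)) hbb
  -- the points
  obtain ⟨ξ, hξ⟩ : ∃ ξ : T → s → E, ∀ t, ξ t = fun i => (u i : E) +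
      ∑ m : Fin n, θ ^ (m : ℕ) * algebraMap L E (b ((t, some i), m)) := ⟨_, fun _ => rfl⟩
  have hxξ : ∀ (t : T) (i : s) (σ : G), algebraMap E Ω (σ (ξ t i)) = x ((t, some i), σ) := by
    intro t i σ
    rw [hξ, hxdef]
    simp only [map_add, map_sum, map_mul, map_pow, map_ratCast, Matrix.of_apply, u', hκ]
    congr 1
    refine Finset.sum_congr rfl fun m _ => ?_
    congr 1
    have h5 : σ (algebraMap L E (b ((t, some i), m))) = algebraMap L E (b ((t, some i), m)) :=
      AlgEquiv.commutes σ _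
    rw [h5]
    rfl
  choose y hy using fun t : T => hroot (fun i m => b ((t, some i), m)) fun i m => hb _
  have hind : ∀ t, AlgebraicIndependent ℚ (ξ t) := by
    intro t
    have h1 : AlgebraicIndependent (AlgebraicClosure ℚ) fun i : s => x ((t, some i), (1 : G)) :=
      hx.1.comp (fun i : s => ((t, some i), (1 : G))) fun i i' h => by simpa using h
    have h2 : AlgebraicIndependent ℚ fun i : s => x ((t, some i), (1 : G)) :=
      h1.restrictScalars (algebraMap ℚ (AlgebraicClosure ℚ)).injective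
    let f : E →ₐ[ℚ] Ω := (algebraMap E Ω).toRatAlgHom
    have h3 : (fun i : s => x ((t, some i), (1 : G))) = f ∘ ξ t := by
      funext i
      exact (hxξ t i 1).symm
    rw [h3] at h2
    exact (AlgHom.algebraicIndependent_iff f hEi).1 h2
  choose ψ hψ hψa using fun t : T => hQb E (ξ t) (y t) (hind t) (by
    have h1 := hy t
    rw [hξ]
    exact h1)
  let c : T → G → ov F Ω := fun t σ => mr F (((algebraMap E Ω).comp (σ : E →+* E)).comp (ψ t)) a
  have hc : ∀ t σ, c t σ ∈ supp (restr (AlgebraicClosure ℚ) F) x ((fun i : s => ((t, some i), σ)) '' Set.univ) := by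
    intro t σ
    refine supp_hom F hA a _ fun z => ?_
    refine isAlgebraic_hom ((algebraMap E Ω).comp (σ : E →+* E)) (ξ := ξ t) (fun i => ?_) (hψa t z)
    exact ⟨((t, some i), σ), ⟨i, Set.mem_univ i, rfl⟩, (hxξ t i σ).symm⟩
  have hc1 : ∀ t, c t 1 ∉ base (restr (AlgebraicClosure ℚ) F) Ω := by
    intro t
    refine hNB F hF Ω A a _ ?_ ?_
    · exact (hEi.comp (AlgEquiv.injective (1 : G))).comp (hψ t)
    · have h1 : mr F (A.val : A →+* Ω) a = α := ha
      rwa [h1]
  have hG := hF (AlgebraicClosure ℚ) Ω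
  refine ⟨E, hfd, T, fun t => mr F (ψ t) a, hgal, hT, ?_⟩
  have hsum : ∀ t, mr F (algebraMap E Ω) (∑ σ : E ≃ₐ[L] E, mr F (σ : E →+* E) (mr F (ψ t) a)) =
      ∑ σ : G, c t σ := by
    intro t
    rw [map_sum]
    refine Finset.sum_congr rfl fun σ _ => ?_
    rw [← mr_comp, ← mr_comp]
  simp only [hsum]
  refine independent hG hx (S := fun t => {z | z.1.1 = t}) ?_ ?_ ?_
  · intro t t' htt'
    rw [Set.disjoint_left]
    intro z hz hz'
    exact htt' (Eq.trans (Eq.symm hz) hz')
  · intro t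
    refine Submodule.sum_mem _ fun σ _ => supp_mono _ ?_ (hc t σ)
    rintro _ ⟨i, _, rfl⟩
    rfl
  · intro t hmem
    refine hc1 t (two_term hG hx {z | z.2 ≠ 1} (supp_mono _ ?_ (hc t 1)) (α' := ∑ σ ∈
      (Finset.univ : Finset G).erase 1, c t σ) ?_ ?_)
    · rintro _ ⟨i, _, rfl⟩
      simp
    · refine Submodule.sum_mem _ fun σ hσ => supp_mono _ ?_ (hc t σ)
      rintro _ ⟨i, _, rfl⟩
      exact Finset.ne_of_mem_erase hσ
    · rw [Finset.add_sum_erase _ _ (Finset.mem_univ (1 : G))]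
      exact hmem

end Pool.Agent.K3h78.PN
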