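import Pool.Agent.K3h78.PN.Main
import Pool.Agent.K3h78.RN.Motivic

/-!
# Motivic cohomology of complete nonarchimedean fields of characteristic zero
-/

set_option autoImplicit false
set_option linter.unusedSectionVars false
set_option maxHeartbeats 1000000

open CategoryTheory AlgebraicGeometry Opposite Pool.Agent.K3h78.RN Pool.Agent.K3h85.BS

namespace Pool.Agent.K3h78.PN

lemma exists_hom_closure' (k Ω : Type) [Field k] [Field Ω] [IsAlgClosed Ω] [Algebra k Ω] :
    Nonempty (AlgebraicClosure k →+* Ω) :=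
  ⟨((IsAlgClosed.lift : AlgebraicClosure k →ₐ[k] Ω) : _ →+* Ω)⟩

/-- the sum of the conjugates is invariant -/
lemma sum_conj_invariant (F : CommRingCat.{0} ⥤ ModuleCat.{0} ℚ) {L E : Type} [Field L] [Field E]
    [Algebra L E] [FiniteDimensional L E] (γ : ov F E) (τ : E ≃ₐ[L] E) :
    mr F (τ : E →+* E) (∑ σ : E ≃ₐ[L] E, mr F (σ : E →+* E) γ) =
      ∑ σ : E ≃ₐ[L] E, mr F (σ : E →+* E) γ := by
  rw [map_sum]
  simp only [← mr_comp]
  refine Fintype.sum_equiv (Equiv.mulLeft τ) _ _ fun σ => ?_
  rfl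

theorem vanishes (hHENS : S_HENS) (hMODEL : S_MODEL) (hEXT : S_EXT)
    (hMB : S_MBASIS) (hNB : S_NOTBASE) (hVAN : S_VAN) (T : DescentTheory) (k j : ℤ)
    (L : Type) [NontriviallyNormedField L] [CompleteSpace L] [IsUltrametricDist L] [CharZero L]
    (h0 : Subsingleton (overRing (T.H k j) (AlgebraicClosure ℚ)))
    (h : Cardinal.mk (overRing (T.H k j) L) < Cardinal.continuum) :
    Subsingleton (overRing (T.H k j) ℂ) := by
  let Ω := AlgebraicClosure L
  have hchar : CharZero Ω := charZero_of_injective_algebraMap (algebraMap L Ω).injective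
  obtain ⟨i⟩ := exists_hom_closure' ℚ Ω
  let _ : Algebra (AlgebraicClosure ℚ) Ω := i.toAlgebra
  let F := onRings (T.H k j)
  have hF : ∀ (K M : Type) [Field K] [CharZero K] [Field M] [Algebra K M],
      IsFinitary (restr K F) M := fun K M _ _ _ _ => T.continuity k j K M
  have hbase : ∀ α : ov F Ω, α ∈ base (restr (AlgebraicClosure ℚ) F) Ω := by
    intro α
    by_contra hα
    obtain ⟨E, hfd, S, γ, hgal, hS, hli⟩ := core hHENS hMODEL hEXT hMB hNB F hF L Ω hα
    have hex : ∀ t : S, ∃ β : overRing (T.H k j) L, mapRing (T.H k j) (algebraMap L E) β =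
        ∑ σ : E ≃ₐ[L] E, mr F (σ : E →+* E) (γ t) := fun t =>
      T.descent k j L E _ fun τ => sum_conj_invariant F (γ t) τ
    choose β hβ using hex
    have hinj : Function.Injective β := by
      intro t t' htt'
      apply hli.injective
      change (base (restr (AlgebraicClosure ℚ) F) Ω).mkQ (mr F (algebraMap E Ω)
          (∑ σ : E ≃ₐ[L] E, mr F (σ : E →+* E) (γ t))) =
        (base (restr (AlgebraicClosure ℚ) F) Ω).mkQ (mr F (algebraMap E Ω)
          (∑ σ : E ≃ₐ[L] E, mr F (σ : E →+* E) (γ t')))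
      rw [← hβ t, ← hβ t', htt']
    exact absurd h (not_lt.2 (hS.trans (Cardinal.mk_le_of_injective hinj)))
  have hzero : Subsingleton (ov F Ω) := by
    refine subsingleton_of_forall_eq 0 fun α => ?_
    obtain ⟨β, rfl⟩ := hbase α
    have h2 : β = 0 := @Subsingleton.elim _ h0 β 0
    rw [h2, map_zero]
    rfl
  have hcard : Cardinal.aleph0 < Cardinal.mk Ω :=
    (Cardinal.aleph0_lt_continuum.trans_le
      (continuum_le_cardinal_of_nontriviallyNormedField L)).trans_le
      (Cardinal.mk_le_of_injective (algebraMap L Ω).injective)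
  exact hVAN F hF (fun E E' _ _ _ _ _ => T.transfer k j E E') Ω hcard hzero ℂ

end Pool.Agent.K3h78.PN
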