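import Pool.Agent.K3h78.RN.Inv

/-!
# Project PN: the Beilinson–Soulé vanishing conjecture and complete fields of mixed characteristic

Statements of the bricks.
-/

set_option autoImplicit false
set_option maxHeartbeats 400000

open MvPolynomial CategoryTheory Pool.Agent.K3h78.RN Pool.Agent.K3h85.BS

namespace Pool.Agent.K3h78.PN

/-- The value `Q(ξ, y)` of a polynomial with coefficients in a polynomial ring over `ℚ`. -/
noncomputable def ev {s M : Type} [Field M] [CharZero M] (Q : Polynomial (MvPolynomial s ℚ))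
    (ξ : s → M) (y : M) : M :=
  Polynomial.eval₂ (eval₂Hom (Rat.castHom M) ξ) y Q

/-- `x` is algebraic over `ℚ`. -/
def IsAlgNum {M : Type} [Field M] [CharZero M] (x : M) : Prop :=
  ∃ q : Polynomial ℚ, q ≠ 0 ∧ q.eval₂ (Rat.castHom M) x = 0

/-- HENS -/
def S_HENS : Prop :=
  ∀ (L : Type) [NontriviallyNormedField L] [CompleteSpace L] [IsUltrametricDist L] [CharZero L]
    (E : Type) [Field E] [CharZero E] [Algebra L E] [FiniteDimensional L E]
    (s : Type) [Fintype s] (n : ℕ) (θ : E) (Q : Polynomial (MvPolynomial s ℚ)) (u : s → ℚ) (v : E),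
    ev Q (fun i => (u i : E)) v = 0 → ev (Polynomial.derivative Q) (fun i => (u i : E)) v ≠ 0 →
    ∃ δ : ℝ, 0 < δ ∧ ∀ b : s → Fin n → L, (∀ i m, ‖b i m‖ < δ) →
      ∃ y : E, ev Q (fun i => (u i : E) + ∑ m : Fin n, θ ^ (m : ℕ) * algebraMap L E (b i m)) y = 0

/-- MODEL -/
def S_MODEL : Prop :=
  ∀ (Ω : Type) [Field Ω] [CharZero Ω] (A : Subalgebra ℚ Ω), A.FG →
    ∃ (s : Type) (_ : Fintype s) (Q : Polynomial (MvPolynomial s ℚ)) (D : MvPolynomial s ℚ),
      D ≠ 0 ∧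
      (∀ (M : Type) [Field M] [CharZero M] [IsAlgClosed M] (u : s → M),
        eval₂ (Rat.castHom M) u D ≠ 0 →
          ∃ v : M, ev Q u v = 0 ∧ ev (Polynomial.derivative Q) u v ≠ 0) ∧
      ∀ (M : Type) [Field M] [CharZero M] (ξ : s → M) (y : M), AlgebraicIndependent ℚ ξ →
        ev Q ξ y = 0 → ∃ ψ : A →+* M, Function.Injective ψ ∧
          ∀ b, IsAlgebraic (Algebra.adjoin ℚ (Set.range ξ)) (ψ b)

/-- EXT -/
def S_EXT : Prop :=
  ∀ (L Ω : Type) [Field L] [CharZero L] [Field Ω] [CharZero Ω] [Algebra L Ω] [IsAlgClosure L Ω]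
    (v : Ω), IsAlgNum v → ∃ (E : IntermediateField L Ω) (θ : E), FiniteDimensional L E ∧
      IsGalois L E ∧ v ∈ E ∧ IsAlgNum θ ∧ IntermediateField.adjoin L {θ} = ⊤

/-- SMALL -/
def S_SMALL : Prop :=
  ∀ (L Ω K : Type) [NontriviallyNormedField L] [CompleteSpace L] [CharZero L] [Field Ω]
    [Algebra L Ω] [IsAlgClosure L Ω] [Field K] [Algebra K Ω], Cardinal.mk K ≤ Cardinal.aleph0 →
    ∀ p : ℕ, p ≠ 0 → ‖(p : L)‖ < 1 → ∀ (s : Type) [Fintype s] [Nonempty s] (n : ℕ), 0 < n →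
      ∀ δ : ℝ, 0 < δ → ∃ (T : Type) (b : (T × s) × Fin n → L),
        Cardinal.continuum ≤ Cardinal.mk T ∧ (∀ z, ‖b z‖ < δ) ∧
          IsTranscendenceBasis K fun z => algebraMap L Ω (b z)

/-- MBASIS -/
def S_MBASIS : Prop :=
  ∀ (K Ω : Type) [Field K] [Field Ω] [Algebra K Ω] (J G m : Type) [Fintype G] [DecidableEq G]
    [Fintype m] [DecidableEq m] (M : Matrix G m K) (N : Matrix m G K), M * N = 1 → N * M = 1 →
    ∀ (u : J → K) (b : J × m → Ω), IsTranscendenceBasis K b →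
      IsTranscendenceBasis K fun z : J × G =>
        algebraMap K Ω (u z.1) + ∑ k, algebraMap K Ω (M z.2 k) * b (z.1, k)

/-- NOTBASE -/
def S_NOTBASE : Prop :=
  ∀ (F : CommRingCat.{0} ⥤ ModuleCat.{0} ℚ), (∀ (K L : Type) [Field K] [CharZero K] [Field L]
      [Algebra K L], IsFinitary (restr K F) L) →
    ∀ (Ω : Type) [Field Ω] [CharZero Ω] [IsAlgClosed Ω] [Algebra (AlgebraicClosure ℚ) Ω]
      (A : Subalgebra ℚ Ω) (a : ov F A) (ψ : A →+* Ω), Function.Injective ψ →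
      mr F (A.val : A →+* Ω) a ∉ base (restr (AlgebraicClosure ℚ) F) Ω →
      mr F ψ a ∉ base (restr (AlgebraicClosure ℚ) F) Ω

/-- VAN -/
def S_VAN : Prop :=
  ∀ (F : CommRingCat.{0} ⥤ ModuleCat.{0} ℚ), (∀ (K L : Type) [Field K] [CharZero K] [Field L]
      [Algebra K L], IsFinitary (restr K F) L) →
    (∀ (E E' : Type) [Field E] [CharZero E] [Field E'] [Algebra E E']
      [Algebra.IsAlgebraic E E'], Function.Injective (mr F (algebraMap E E'))) →
    ∀ (Ω : Type) [Field Ω] [CharZero Ω] [IsAlgClosed Ω], Cardinal.aleph0 < Cardinal.mk Ω →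
      Subsingleton (ov F Ω) → ∀ (E : Type) [Field E] [CharZero E], Subsingleton (ov F E)

end Pool.Agent.K3h78.PN
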